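import Pool.Agent.H85.Tau

set_option autoImplicit false

namespace Pool.Agent.Results.MP_9c4169_gt.GammaTauUnion

open Pool.Agent.H85.TauDefs

/-- `S1(Gamma, Tau)` is preserved under finite unions of sets of reals. -/
theorem result (X Y : Set ℝ) (hX : S1 (Gamma X) (Tau X)) (hY : S1 (Gamma Y) (Tau Y)) :
    S1 (Gamma (X ∪ Y : Set ℝ)) (Tau (X ∪ Y : Set ℝ)) := by
  have e : (⋃ k : ℕ, if k = 0 then X else Y) = X ∪ Y := by
    ext x
    simp only [Set.mem_iUnion, Set.mem_union]
    constructor
    · rintro ⟨k, hk⟩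
      split_ifs at hk
      · exact Or.inl hk
      · exact Or.inr hk
    · rintro (h | h)
      · exact ⟨0, by simpa using h⟩
      · exact ⟨1, by simpa using h⟩
  rw [← e]
  refine Pool.Agent.H85.Tau.S1GT_iUnion _ fun k => ?_
  by_cases h : k = 0
  · rw [if_pos h]; exact hX
  · rw [if_neg h]; exact hY

end Pool.Agent.Results.MP_9c4169_gt.GammaTauUnion
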